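import Pool.Agent.Results.MP_696765_co.IrreducibleUnbounded

set_option autoImplicit false

/-!
# No pied circuit graphs and no lonely colour graphs have unbounded chromatic number

Both questions are answered in the negative, by finite graphs: for every `m` there is a finite
graph with more than `m` as chromatic number which is both a no lonely colour graph and a
no pied circuit graph (with the same edge colouring).

The graphs are the Cayley graphs of finite groups with respect to irreducible generating sets; that
their chromatic numbers are unbounded is proved in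
`Pool/Agent/Results/MP_696765_co/IrreducibleUnbounded.lean`.
-/

namespace Pool.Agent.Results.MP_2f2576_co.NoLonelyUnbounded

open Pool.Agent.Results.MP_696765_co.IrreducibleUnbounded

/-- (i) Every vertex meets at most two edges of each colour. The colouring `c` is a function on
unordered pairs; only its values on edges matter. -/
def AtMostTwo {V κ : Type} (X : SimpleGraph V) (c : Sym2 V → κ) : Prop :=
  ∀ (v : V) (k : κ), {e | e ∈ X.edgeSet ∧ v ∈ e ∧ c e = k}.encard ≤ 2

/-- A no pied circuit graph: there is an edge colouring with (i) such that (ii) in every circuit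
at least two edges have the same colour. -/
def IsNoPiedCircuit {V : Type} (X : SimpleGraph V) : Prop :=
  ∃ (κ : Type) (c : Sym2 V → κ), AtMostTwo X c ∧
    ∀ (v : V) (w : X.Walk v v), w.IsCycle →
      ∃ e ∈ w.edges, ∃ e' ∈ w.edges, e' ≠ e ∧ c e' = c e

/-- A no lonely colour graph: there is an edge colouring with (i) such that (iii) in every circuit
each edge has the same colour as some other edge of that circuit. -/
def IsNoLonelyColour {V : Type} (X : SimpleGraph V) : Prop :=
  ∃ (κ : Type) (c : Sym2 V → κ), AtMostTwo X c ∧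
    ∀ (v : V) (w : X.Walk v v), w.IsCycle →
      ∀ e ∈ w.edges, ∃ e' ∈ w.edges, e' ≠ e ∧ c e' = c e

/-- Condition (iii) implies condition (ii). -/
theorem IsNoLonelyColour.isNoPiedCircuit {V : Type} {X : SimpleGraph V}
    (h : IsNoLonelyColour X) : IsNoPiedCircuit X := by
  obtain ⟨κ, c, h1, h2⟩ := h
  refine ⟨κ, c, h1, fun v w hw => ?_⟩
  have hne : w.edges ≠ [] := by
    intro h0
    have := hw.three_le_length
    rw [← SimpleGraph.Walk.length_edges, h0] at this
    simp at this
  obtain ⟨e, he⟩ := List.exists_mem_of_ne_nil _ hne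
  exact ⟨e, he, h2 v w hw e he⟩

section

variable {G : Type} [Group G]

/-- The colour of a pair: the set of generators joining the two elements. -/
def col (H : Set G) (e : Sym2 G) : Set G := {h | h ∈ H ∧ ∃ g, e = s(g, h * g)}

/-- the crucial property of an irreducible generating set -/
theorem notMem_closure {H : Set G} (hH : IsIrreducibleGeneratingSet H) {h : G} (hh : h ∈ H) :
    h ∉ Subgroup.closure (H \ {h}) := by
  intro hmem
  apply hH.2 h hh
  rw [eq_top_iff, ← hH.1, Subgroup.closure_le]
  intro y hy
  by_cases hyh : y = h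
  · rw [hyh]; exact hmem
  · exact Subgroup.subset_closure ⟨hy, hyh⟩

theorem col_eq {H : Set G} (hH : IsIrreducibleGeneratingSet H) {e : Sym2 G} {h : G}
    (h1 : h ∈ col H e) : col H e = {h} := by
  obtain ⟨hh, g, rfl⟩ := h1
  apply Set.eq_singleton_iff_unique_mem.2
  refine ⟨⟨hh, g, rfl⟩, ?_⟩
  rintro k ⟨hk, g', h2⟩
  by_contra hne
  rw [Sym2.eq_iff] at h2
  rcases h2 with ⟨h3, h4⟩ | ⟨h3, h4⟩
  · rw [h3] at h4
    exact hne (mul_right_cancel h4).symm
  · apply notMem_closure hH hk
    have h5 : k = h⁻¹ := by
      rw [h3] at h4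
      rw [eq_inv_iff_mul_eq_one]
      have h6 : g' = (h * k) * g' := by rw [mul_assoc]; exact h4.symm
      have h7 : h * k = 1 := by
        have := h6.symm
        rwa [mul_eq_right] at this
      exact eq_inv_iff_mul_eq_one.1 (inv_eq_of_mul_eq_one_right h7).symm
    rw [h5]
    apply Subgroup.inv_mem
    apply Subgroup.subset_closure
    refine ⟨hh, ?_⟩
    rw [← h5]
    exact fun h => hne h.symm

theorem exists_col {H : Set G} {a b : G} (hab : (CayleyGraph H).Adj a b) :
    ∃ h, h ∈ col H s(a, b) := by
  obtain ⟨-, h, hh, h2 | h2⟩ := hab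
  · exact ⟨h, hh, a, by rw [h2]⟩
  · exact ⟨h, hh, b, by rw [h2, Sym2.eq_swap]⟩

theorem walk_closure {H : Set G} {X : SimpleGraph G} (hX : X ≤ CayleyGraph H) (h : G)
    {a b : G} (w : X.Walk a b) (hw : ∀ e ∈ w.edges, h ∉ col H e) :
    b * a⁻¹ ∈ Subgroup.closure (H \ {h}) := by
  induction w with
  | nil => rw [mul_inv_cancel]; exact Subgroup.one_mem _
  | @cons u v w' huv p ih =>
    have h1 := ih (fun e he => hw e (by simp [he]))
    have h2 := hw s(u, v) (by simp)
    obtain ⟨k, hk, hk'⟩ := (hX huv).2
    have hkh : k ≠ h := by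
      rintro rfl
      apply h2
      rcases hk' with h3 | h3
      · exact ⟨hk, u, by rw [h3]⟩
      · exact ⟨hk, v, by rw [h3, Sym2.eq_swap]⟩
    have hkc : k ∈ Subgroup.closure (H \ {h}) := Subgroup.subset_closure ⟨hk, hkh⟩
    rcases hk' with h3 | h3
    · have : w' * u⁻¹ = (w' * v⁻¹) * k := by rw [h3]; group
      rw [this]
      exact Subgroup.mul_mem _ h1 hkc
    · have : w' * u⁻¹ = (w' * v⁻¹) * k⁻¹ := by rw [h3]; group
      rw [this]
      exact Subgroup.mul_mem _ h1 (Subgroup.inv_mem _ hkc)

theorem noLonely {H : Set G} (hH : IsIrreducibleGeneratingSet H) :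
    IsNoLonelyColour (CayleyGraph H) := by
  refine ⟨Set G, col H, ?_, ?_⟩
  · intro v k
    by_cases hne : ∃ e₀ ∈ (CayleyGraph H).edgeSet, v ∈ e₀ ∧ col H e₀ = k
    · obtain ⟨e₀, he₀, -, hk⟩ := hne
      obtain ⟨h, hh⟩ : ∃ h, h ∈ col H e₀ := by
        induction e₀ with
        | _ a b => exact exists_col he₀
      have hk' : k = {h} := by rw [← hk]; exact col_eq hH hh
      have hsub : {e | e ∈ (CayleyGraph H).edgeSet ∧ v ∈ e ∧ col H e = k} ⊆
          {s(v, h * v), s(v, h⁻¹ * v)} := by
        rintro e ⟨he, hv, hc⟩
        rw [hk'] at hc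
        have : h ∈ col H e := by rw [hc]; rfl
        obtain ⟨-, g, rfl⟩ := this
        rw [Sym2.mem_iff] at hv
        rcases hv with rfl | rfl
        · exact Or.inl rfl
        · right
          show s(g, h * g) = s(h * g, h⁻¹ * (h * g))
          rw [inv_mul_cancel_left, Sym2.eq_swap]
      refine (Set.encard_le_encard hsub).trans ((Set.encard_insert_le _ _).trans ?_)
      rw [Set.encard_singleton]
      norm_num
    · have : {e | e ∈ (CayleyGraph H).edgeSet ∧ v ∈ e ∧ col H e = k} = ∅ := by
        ext e
        simp only [Set.mem_ofPred_eq, Set.mem_empty_iff_false, iff_false]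
        rintro ⟨h1, h2, h3⟩
        exact hne ⟨e, h1, h2, h3⟩
      rw [this]
      simp
  · intro v w hw e he
    by_contra hcon
    push Not at hcon
    have he' : e ∈ (CayleyGraph H).edgeSet := w.edges_subset_edgeSet he
    obtain ⟨h, hh⟩ : ∃ h, h ∈ col H e := by
      induction e with
      | _ a b => exact exists_col he'
    have hcol := col_eq hH hh
    -- the graph formed by the edges of the cycle
    let Y : SimpleGraph G := SimpleGraph.fromEdgeSet {e | e ∈ w.edges}
    have hY : ∀ e ∈ w.edges, e ∈ Y.edgeSet := by
      intro e he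
      have h1 := w.edges_subset_edgeSet he
      rw [SimpleGraph.edgeSet_fromEdgeSet]
      exact ⟨he, fun hd => (CayleyGraph H).not_isDiag_of_mem_edgeSet h1 hd⟩
    have hYle : Y ≤ CayleyGraph H := by
      intro a b hab
      rw [SimpleGraph.fromEdgeSet_adj] at hab
      exact w.edges_subset_edgeSet hab.1
    have hcyc : (w.transfer Y hY).IsCycle := hw.transfer hY
    obtain ⟨hhH, g, rfl⟩ := hh
    have hadj : Y.Adj g (h * g) ∧ (Y.deleteEdges {s(g, h * g)}).Reachable g (h * g) := by
      rw [SimpleGraph.adj_and_reachable_delete_edges_iff_exists_cycle]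
      exact ⟨v, w.transfer Y hY, hcyc, by rw [SimpleGraph.Walk.edges_transfer]; exact he⟩
    obtain ⟨p⟩ := hadj.2
    have h3 := walk_closure (H := H) (X := Y.deleteEdges {s(g, h * g)})
      ((SimpleGraph.deleteEdges_le _).trans hYle) h p (by
        intro e' he'' hmem
        have h4 := p.edges_subset_edgeSet he''
        have h5 : e' ∈ w.edges ∧ e' ≠ s(g, h * g) := by
          induction e' with
          | _ a b =>
            have h6 : (Y.deleteEdges {s(g, h * g)}).Adj a b := h4
            rw [SimpleGraph.deleteEdges_adj, SimpleGraph.fromEdgeSet_adj] at h6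
            exact ⟨h6.1.1, h6.2⟩
        exact hcon e' h5.1 h5.2 (by rw [hcol, col_eq hH hmem]))
    apply notMem_closure hH hhH
    rwa [mul_inv_cancel_right] at h3

end

/-- For every `m` there is a finite graph of chromatic number larger than `m` that is a no lonely
colour graph and a no pied circuit graph. So neither class has bounded chromatic number. -/
theorem result : ∀ m : ℕ, ∃ (V : Type) (_ : Finite V) (X : SimpleGraph V),
    IsNoLonelyColour X ∧ IsNoPiedCircuit X ∧ (m : ℕ∞) < X.chromaticNumber := by
  intro m
  obtain ⟨G, i1, i2, H, -, hH, hm⟩ :=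
    Pool.Agent.Results.MP_696765_co.IrreducibleUnbounded.result m
  exact ⟨G, i2, CayleyGraph H, noLonely hH, (noLonely hH).isNoPiedCircuit, hm⟩

end Pool.Agent.Results.MP_2f2576_co.NoLonelyUnbounded
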